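import Pool.Agent.Q120.SH.Main
import Pool.Agent.Q120.ET.Main

/-!
# Cramér's model: general families of windows
-/

set_option autoImplicit false

namespace Pool.Agent.Q120.GF

open Finset MeasureTheory Filter Pool.Agent.Q120.ET Pool.Agent.Q120.MF Pool.Agent.Q120.SH

variable {Ω : Type*} [MeasurableSpace Ω] {μ : Measure Ω} [IsProbabilityMeasure μ] {A : Ω → Set ℕ}

/-- If the weights are large, almost surely almost all windows are hit. -/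
theorem gen_hit (hA : IsCramer μ A) (X : Set ℕ) (W : ℕ → Finset ℕ) (hW : ∀ x ∈ X, ∀ n ∈ W x, 3 ≤ n)
    (hs : Summable (X.indicator (fun x => Real.exp (-∑ n ∈ W x, 1 / Real.log (n : ℝ))))) :
    ∀ᵐ ω ∂μ, ∀ᶠ x in atTop, x ∈ X → ∃ a ∈ A ω, a ∈ W x := by
  classical
  obtain ⟨E, hE⟩ : ∃ E : ℕ → Set Ω, E = fun x => if x ∈ X then {ω | Disjoint (tr A (W x) ω) (W x)} else ∅ :=
    ⟨_, rfl⟩
  have h1 := ae_eventually_notMem (tsum_ne_top_of_real (μ := μ) hs (f := E) (Eventually.of_forall (fun x => by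
      rw [hE]
      by_cases hx : x ∈ X
      · simp only [if_pos hx]
        rw [Set.indicator_of_mem hx, real_free hA (hW x hx)]
        exact prod_le_exp_weight _ (hW x hx)
      · simp only [if_neg hx]
        rw [Set.indicator_of_notMem hx, measureReal_empty])))
  filter_upwards [h1] with ω hω
  filter_upwards [hω] with x hx hxX
  rw [hE] at hx
  simp only [if_pos hxX] at hx
  have h2 : ¬ Disjoint (tr A (W x) ω) (W x) := hx
  rw [Finset.not_disjoint_iff] at h2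
  obtain ⟨a, ha1, ha2⟩ := h2
  exact ⟨a, (mem_tr.1 ha1).2, ha2⟩

/-- In a block with many windows which rarely meet, some window is free. -/
theorem block_free (hA : IsCramer μ A) {θ θ₁ : ℝ} (hθ : 0 < θ) (hθ1 : θ < θ₁) :
    ∃ k0 : ℕ, ∀ k ≥ k0, ∀ (J : Finset ℕ) (W : ℕ → Finset ℕ) (D : ℕ),
      (∀ x ∈ J, 1 ≤ x ∧ x < 2 ^ (k + 1)) → (∀ x ∈ J, ∀ n ∈ W x, 3 ≤ n) →
      (∀ x ∈ J, ∑ n ∈ W x, 1 / Real.log (n : ℝ) ≤ θ * Real.log x) →
      (∀ x ∈ J, ∃ F : Finset ℕ, F.card ≤ D ∧ ∀ y ∈ J, ¬ Disjoint (W x) (W y) → y ∈ F) →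
      (D : ℝ) + 1 ≤ (2 : ℝ) ^ ((k : ℝ) * ((θ₁ - θ) / 4)) →
      (2 : ℝ) ^ ((k : ℝ) * θ₁) ≤ (J.card : ℝ) →
      μ.real {ω | ∀ x ∈ J, ∃ a ∈ A ω, a ∈ W x} ≤ Real.exp (-(k : ℝ)) := by
  classical
  obtain ⟨ε, hε⟩ : ∃ ε : ℝ, ε = (θ₁ - θ) / 4 := ⟨_, rfl⟩
  have hε0 : 0 < ε := by rw [hε]; linarith
  obtain ⟨δ, hδ⟩ : ∃ δ : ℝ, δ = ε / θ := ⟨_, rfl⟩
  have hδ0 : 0 < δ := by rw [hδ]; positivity
  obtain ⟨c, hc0, hc⟩ := exp_weight_le_prod hδ0
  obtain ⟨c', hc'⟩ : ∃ c' : ℝ, c' = c * (2 : ℝ) ^ (-(θ + ε)) := ⟨_, rfl⟩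
  have hc'0 : 0 < c' := by rw [hc']; positivity
  have hr1 : 1 < (2 : ℝ) ^ (2 * ε) := Real.one_lt_rpow (by norm_num) (by linarith)
  have hT := (tendsto_pow_const_div_const_pow_of_one_lt 1 hr1).eventually_lt_const hc'0
  obtain ⟨k0, hk0⟩ := eventually_atTop.1 hT
  refine ⟨k0, ?_⟩
  intro k hk J W D hJ hW3 hw hF hD hcard
  rw [← hε] at hD
  have hk1 := hk0 k hk
  have hl20 : 0 < Real.log 2 := Real.log_pos (by norm_num)
  obtain ⟨Z, hZ1, hZ2, hZ3⟩ := greedy (fun x y => ¬ Disjoint (W x) (W y)) (fun a b h h' => h h'.symm) D J hF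
  obtain ⟨BB, hBB⟩ : ∃ BB : Finset ℕ, BB = Z.biUnion W := ⟨_, rfl⟩
  have hWB : ∀ x ∈ Z, W x ⊆ BB := by
    intro x hx
    rw [hBB]
    exact subset_biUnion_of_mem W hx
  have hBB3 : ∀ n ∈ BB, 3 ≤ n := by
    intro n hn
    rw [hBB, mem_biUnion] at hn
    obtain ⟨x, hx, hn⟩ := hn
    exact hW3 x (hZ1 hx) n hn
  have hdis : ∀ x ∈ Z, ∀ y ∈ Z, x ≠ y → Disjoint (W x) (W y) := by
    intro x hx y hy hxy
    exact not_not.1 (hZ2 x hx y hy hxy)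
  have hprob := real_no_free hA hBB3 Z W hWB hdis
  have hsub : {ω | ∀ x ∈ J, ∃ a ∈ A ω, a ∈ W x} ⊆ {ω | ∀ x ∈ Z, ¬ Disjoint (tr A BB ω) (W x)} := by
    intro ω hω x hx
    obtain ⟨a, ha1, ha2⟩ := hω x (hZ1 hx)
    rw [Finset.not_disjoint_iff]
    exact ⟨a, mem_tr.2 ⟨hWB x hx ha2, ha1⟩, ha2⟩
  refine (measureReal_mono hsub).trans ?_
  rw [hprob]
  obtain ⟨p, hp⟩ : ∃ p : ℝ, p = c * Real.exp (-((θ + ε) * ((k + 1) * Real.log 2))) := ⟨_, rfl⟩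
  have hp0 : 0 < p := by rw [hp]; positivity
  have hpx : ∀ x ∈ Z, p ≤ ∏ n ∈ W x, (1 - 1 / Real.log (n : ℝ)) := by
    intro x hx
    refine le_trans ?_ (hc (W x) (hW3 x (hZ1 hx)))
    rw [hp]
    apply mul_le_mul_of_nonneg_left _ hc0.le
    apply Real.exp_le_exp.2
    have h3 := hw x (hZ1 hx)
    have h4 : Real.log (x : ℝ) ≤ (k + 1) * Real.log 2 := by
      have h4 : ((x : ℕ) : ℝ) ≤ (2 : ℝ) ^ (k + 1) := by exact_mod_cast (hJ x (hZ1 hx)).2.le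
      have h5 := Real.log_le_log (by
        have := (hJ x (hZ1 hx)).1
        exact_mod_cast this) h4
      rw [Real.log_pow] at h5
      push_cast at h5
      exact h5
    have h5 : (1 + δ) * ∑ n ∈ W x, 1 / Real.log (n : ℝ) ≤ (θ + ε) * ((k + 1) * Real.log 2) := by
      calc (1 + δ) * ∑ n ∈ W x, 1 / Real.log (n : ℝ) ≤ (1 + δ) * (θ * Real.log x) := by
            apply mul_le_mul_of_nonneg_left h3 (by linarith)
        _ = (θ + ε) * Real.log x := by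
            rw [hδ]
            field_simp
        _ ≤ _ := mul_le_mul_of_nonneg_left h4 (by linarith)
    linarith
  have hprod : ∏ x ∈ Z, (1 - ∏ n ∈ W x, (1 - 1 / Real.log (n : ℝ))) ≤ Real.exp (-(Z.card * p)) := by
    have h3 : ∏ x ∈ Z, (1 - ∏ n ∈ W x, (1 - 1 / Real.log (n : ℝ))) ≤ ∏ x ∈ Z, Real.exp (-p) := by
      apply Finset.prod_le_prod
      · intro x hx
        have h4 : ∏ n ∈ W x, (1 - 1 / Real.log (n : ℝ)) ≤ 1 := by
          apply prod_le_one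
          · intro n hn
            have h5 := one_lt_log (hW3 x (hZ1 hx) n hn)
            have : 1 / Real.log (n : ℝ) < 1 := by rw [div_lt_one (by linarith)]; exact h5
            linarith
          · intro n hn
            have := term_nonneg (n := n)
            linarith
        linarith
      · intro x hx
        have h4 := hpx x hx
        have h5 := Real.one_sub_le_exp_neg p
        linarith
    refine h3.trans (le_of_eq ?_)
    rw [prod_const, ← Real.exp_nat_mul]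
    congr 1
    ring
  refine hprod.trans ?_
  apply Real.exp_le_exp.2
  have hZc : (2 : ℝ) ^ ((k : ℝ) * θ₁) ≤ (2 : ℝ) ^ ((k : ℝ) * ε) * Z.card := by
    have h3 : (J.card : ℝ) ≤ ((D : ℝ) + 1) * Z.card := by exact_mod_cast hZ3
    have h4 : ((D : ℝ) + 1) * Z.card ≤ (2 : ℝ) ^ ((k : ℝ) * ε) * Z.card :=
      mul_le_mul_of_nonneg_right hD (Nat.cast_nonneg _)
    linarith
  have hpe : p = c' * (2 : ℝ) ^ (-((k : ℝ) * (θ + ε))) := by
    rw [hp, hc', mul_assoc, ← Real.rpow_add (by norm_num), Real.rpow_def_of_pos (by norm_num)]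
    congr 2
    ring
  have hmain : (k : ℝ) ≤ c' * (2 : ℝ) ^ ((k : ℝ) * (2 * ε)) := by
    have h3 : ((2 : ℝ) ^ (2 * ε)) ^ k = (2 : ℝ) ^ ((k : ℝ) * (2 * ε)) := by
      rw [← Real.rpow_natCast, ← Real.rpow_mul (by norm_num)]
      congr 1
      ring
    rw [pow_one, h3, div_lt_iff₀ (by positivity)] at hk1
    linarith
  have hfin : (2 : ℝ) ^ ((k : ℝ) * (2 * ε)) * ((2 : ℝ) ^ ((k : ℝ) * ε) * (2 : ℝ) ^ ((k : ℝ) * (θ + ε))) =
      (2 : ℝ) ^ ((k : ℝ) * θ₁) := by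
    rw [← Real.rpow_add (by norm_num), ← Real.rpow_add (by norm_num)]
    congr 1
    rw [hε]
    ring
  have h8 : (0 : ℝ) < (2 : ℝ) ^ ((k : ℝ) * ε) := by positivity
  have h9 : (0 : ℝ) < (2 : ℝ) ^ ((k : ℝ) * (θ + ε)) := by positivity
  have h10 : (2 : ℝ) ^ (-((k : ℝ) * (θ + ε))) = ((2 : ℝ) ^ ((k : ℝ) * (θ + ε)))⁻¹ :=
    Real.rpow_neg (by norm_num) _
  have h11 : (2 : ℝ) ^ ((k : ℝ) * (2 * ε)) * (2 : ℝ) ^ ((k : ℝ) * (θ + ε)) ≤ Z.card := by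
    have h12 : (2 : ℝ) ^ ((k : ℝ) * ε) * ((2 : ℝ) ^ ((k : ℝ) * (2 * ε)) * (2 : ℝ) ^ ((k : ℝ) * (θ + ε))) ≤
        (2 : ℝ) ^ ((k : ℝ) * ε) * Z.card := by
      calc _ = (2 : ℝ) ^ ((k : ℝ) * θ₁) := by rw [← hfin]; ring
        _ ≤ _ := hZc
    exact le_of_mul_le_mul_left h12 h8
  rw [neg_le_neg_iff, hpe, h10]
  calc (k : ℝ) ≤ c' * (2 : ℝ) ^ ((k : ℝ) * (2 * ε)) := hmain
    _ = ((2 : ℝ) ^ ((k : ℝ) * (2 * ε)) * (2 : ℝ) ^ ((k : ℝ) * (θ + ε))) *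
        (c' * ((2 : ℝ) ^ ((k : ℝ) * (θ + ε)))⁻¹) := by field_simp
    _ ≤ Z.card * (c' * ((2 : ℝ) ^ ((k : ℝ) * (θ + ε)))⁻¹) :=
        mul_le_mul_of_nonneg_right h11 (by positivity)

/-- Infinitely many windows of a family are free. -/
theorem gen_free (hA : IsCramer μ A) (X : Set ℕ) (W : ℕ → Finset ℕ) {θ θ' : ℝ} (hθ : 0 < θ) (hθ' : θ < θ')
    (hX : ¬ Summable (X.indicator (fun x : ℕ => (x : ℝ) ^ (-θ'))))
    (hW : ∀ᶠ x in atTop, x ∈ X → (∀ n ∈ W x, 3 ≤ n) ∧ ∑ n ∈ W x, 1 / Real.log (n : ℝ) ≤ θ * Real.log x)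
    (hdeg : ∀ ε : ℝ, 0 < ε → ∀ᶠ k : ℕ in atTop, ∃ D : ℕ, (D : ℝ) + 1 ≤ (2 : ℝ) ^ ((k : ℝ) * ε) ∧
      ∀ x ∈ block X k, ∃ F : Finset ℕ, F.card ≤ D ∧ ∀ y ∈ block X k, ¬ Disjoint (W x) (W y) → y ∈ F) :
    ∀ᵐ ω ∂μ, ∃ᶠ x in atTop, x ∈ X ∧ ∀ a ∈ A ω, a ∉ W x := by
  classical
  obtain ⟨θ₁, hθ₁⟩ : ∃ θ₁ : ℝ, θ₁ = (θ + θ') / 2 := ⟨_, rfl⟩
  obtain ⟨k0, hk0⟩ := block_free hA hθ (show θ < θ₁ by linarith)
  have hfreq := dense_blocks (show 0 < θ' by linarith) (show θ₁ < θ' by linarith) hX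
  obtain ⟨N1, hN1⟩ := eventually_atTop.1 hW
  obtain ⟨k1, hk1⟩ := eventually_atTop.1 (hdeg ((θ₁ - θ) / 4) (by linarith))
  obtain ⟨E, hE⟩ : ∃ E : ℕ → Set Ω, E = fun k => if max (max k0 k1) N1 ≤ k ∧
      (2 : ℝ) ^ ((k : ℝ) * θ₁) ≤ ((block X k).card : ℝ)
    then {ω | ∀ x ∈ block X k, ∃ a ∈ A ω, a ∈ W x} else ∅ := ⟨_, rfl⟩
  have hgeo : Summable (fun k : ℕ => Real.exp (-(k : ℝ))) := Real.summable_exp_neg_nat
  have hae := ae_eventually_notMem (tsum_ne_top_of_real (μ := μ) hgeo (f := E) (Eventually.of_forall (fun k => by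
    rw [hE]
    by_cases h3 : max (max k0 k1) N1 ≤ k ∧ (2 : ℝ) ^ ((k : ℝ) * θ₁) ≤ ((block X k).card : ℝ)
    · simp only [if_pos h3]
      have hkk0 : k0 ≤ k := ((le_max_left _ _).trans (le_max_left _ _)).trans h3.1
      have hkk1 : k1 ≤ k := ((le_max_right _ _).trans (le_max_left _ _)).trans h3.1
      have hkN1 : N1 ≤ k := (le_max_right _ _).trans h3.1
      obtain ⟨D, hD1, hD2⟩ := hk1 k hkk1
      have hlt : k < 2 ^ k := Nat.lt_two_pow_self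
      refine hk0 k hkk0 (block X k) W D ?_ ?_ ?_ hD2 hD1 h3.2
      · intro x hx
        rw [mem_block] at hx
        exact ⟨by omega, hx.1.2⟩
      · intro x hx
        rw [mem_block] at hx
        exact (hN1 x (by omega) hx.2).1
      · intro x hx
        rw [mem_block] at hx
        exact (hN1 x (by omega) hx.2).2
    · simp only [if_neg h3]
      rw [measureReal_empty]
      exact (Real.exp_pos _).le)))
  filter_upwards [hae] with ω hω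
  rw [frequently_atTop]
  intro N
  obtain ⟨k, hk1', hk2, hk3⟩ := (hfreq.and_eventually (hω.and (eventually_ge_atTop (max (max (max k0 k1) N1) N)))).exists
  have hkk0 : max (max k0 k1) N1 ≤ k := (le_max_left _ _).trans hk3
  have hkN : N ≤ k := (le_max_right _ _).trans hk3
  rw [hE] at hk2
  simp only [if_pos (show max (max k0 k1) N1 ≤ k ∧ (2 : ℝ) ^ ((k : ℝ) * θ₁) ≤ ((block X k).card : ℝ) from
    ⟨hkk0, hk1'⟩)] at hk2
  rw [Set.mem_ofPred_eq] at hk2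
  push Not at hk2
  obtain ⟨x, hx, hfree⟩ := hk2
  have hx' := mem_block.1 hx
  refine ⟨x, ?_, hx'.2, hfree⟩
  have : k < 2 ^ k := Nat.lt_two_pow_self
  omega

end Pool.Agent.Q120.GF
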